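import Pool.Agent.KS6_47.Vis.Asym

/-!
# The number of visibility graphs of simple polygons: `2 n log₂ n` and `4 n log₂ n`

`N n` is the number of isomorphism classes of visibility graphs of simple polygons with `n`
vertices and `NGP n` the number of those that are realized by a polygon no three of whose vertices
are collinear (`Pool/Agent/KS6_47/Vis/Defs.lean`).

* Lower bound (`Cfg`, `Pert`, `Fam`, `Graphs`, `Count`): the polygon lies between two piecewise
  linear graphs. Below, there are `p` pockets between consecutive peaks and each pocket contains `s`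
  vertices; above, there are `s m` targets on the left and `s m` targets on the right. The `j`-th
  vertex of the `i`-th pocket sees the first `j m + a` left targets and the first
  `(s - 1 - j) m + b` right targets, and the numbers `a, b < m` can be chosen arbitrarily and
  independently for all `s p` pocket vertices. A small perturbation makes the polygon generic. Only
  the places of the `p + 1` peaks and three sets of vertices have to be known to recover all the
  numbers from the graph, so `m ^ (2 s p) ≤ NGP n * n ^ (p + 1) * 8 ^ n`.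
* Upper bound (`Upper`): the signs of `2 n ^ 3` quadratic forms determine the graph, and a Warren
  bound of the strong form `∑ C(M, k) 2 ^ k * 5 ^ V` applies.
-/

set_option autoImplicit false

namespace Pool.Agent.Results.MP_af711c_co.BetweenTwoAndFour

open Pool.Agent.KS6_47.Vis Pool.Agent.KS6_47.VG Filter

/-- For every `c < 2 < 4 < C` and all large `n`,
`c n log₂ n ≤ log₂ (NGP n) ≤ log₂ (N n) ≤ C n log₂ n`; in particular both logarithms are
`Θ(n log n)`. The explicit inequalities behind this are included. -/
theorem result :
    (∀ c : ℝ, c < 2 → ∀ᶠ n : ℕ in atTop, c * (n * Real.logb 2 n) ≤ Real.logb 2 (NGP n)) ∧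
    (∀ n : ℕ, NGP n ≤ N n) ∧
    (∀ C : ℝ, 4 < C → ∀ᶠ n : ℕ in atTop, Real.logb 2 (N n) ≤ C * (n * Real.logb 2 n)) ∧
    ((fun n : ℕ => Real.logb 2 (N n)) =Θ[atTop] fun n : ℕ => (n : ℝ) * Real.logb 2 n) ∧
    ((fun n : ℕ => Real.logb 2 (NGP n)) =Θ[atTop] fun n : ℕ => (n : ℝ) * Real.logb 2 n) ∧
    (∀ n p s m g : ℕ, 1 ≤ s → 1 ≤ m → n = p * (s + 1) + 4 * (s * m) + g + 1 →
      m ^ (2 * s * p) ≤ NGP n * (n ^ (p + 1) * 8 ^ n)) ∧
    (∀ n : ℕ, N n ≤ 2 * (11 * n) ^ (4 * n)) := by
  have hlow := lower_log 1 (by norm_num)
  have hup := upper_log 5 (by norm_num)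
  refine ⟨lower_log, NGP_le_N, upper_log, theta_of ?_ hup, theta_of hlow ?_, ?_, N_upper⟩
  · filter_upwards [hlow] with n h
    exact h.trans (NGP_log_le n)
  · filter_upwards [hup] with n h
    exact (NGP_log_le n).trans h
  · intro n p s m g hs hm hn
    subst hn
    exact lower_count p s m g hs hm

end Pool.Agent.Results.MP_af711c_co.BetweenTwoAndFour
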